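import Mathlib

namespace Pool.Agent.Results.MP_427463_al.Exists

/-- A CA-group: the centralizer of every non-identity element is abelian. -/
def IsCA (G : Type) [Group G] : Prop :=
  ∀ g : G, g ≠ 1 → ∀ h ∈ Subgroup.centralizer {g}, ∀ k ∈ Subgroup.centralizer {g}, h * k = k * h

open QuaternionGroup

abbrev Q : Type := QuaternionGroup 4
abbrev V : Type := Fin 8 → ℤ_[2]

def e (i : Fin 8) : Q := if i.val < 4 then a (i.val : ZMod (2 * 4)) else xa ((i.val - 4 : ℕ) : ZMod (2 * 4))
def idx : Q → Fin 8
  | a i => ⟨i.val % 4, by omega⟩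
  | xa i => ⟨i.val % 4 + 4, by omega⟩
def sg : Q → ℤ
  | a i => if i.val < 4 then 1 else -1
  | xa i => if i.val < 4 then 1 else -1
def χ : Q → ZMod 2
  | a _ => 0
  | xa _ => 1
def π (r : Q) (i : Fin 8) : Fin 8 := idx (r⁻¹ * e i)
def s (r : Q) (i : Fin 8) : ℤ := sg (r⁻¹ * e i)
def z : Q := a 4

lemma π_mul : ∀ r q i, π (r * q) i = π q (π r i) := by decide +kernel
lemma s_mul : ∀ r q i, s (r * q) i = s r i * s q (π r i) := by decide +kernel
lemma π_one : ∀ i, π 1 i = i ∧ s 1 i = 1 := by decide +kernel
lemma π_z : ∀ i, π z i = i ∧ s z i = -1 := by decide +kernel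
lemma s_two : ∀ r i, (s r i : ZMod 2) = 1 := by decide +kernel
lemma π_bij : ∀ r, Function.Bijective (π r) := by decide +kernel
lemma χ_mul : ∀ r q, χ (r * q) = χ r + χ q := by decide +kernel
lemma χ_inv : ∀ r, χ r⁻¹ = χ r := by decide +kernel
lemma pow_z : ∀ r : Q, r ≠ 1 → ∃ k : Fin 5, r ^ k.val = z := by decide +kernel
lemma z_comm : ∀ r : Q, r * z = z * r := by decide +kernel
lemma noncomm : ∀ r q : Q, r * q ≠ q * r →
    (∃ k : Fin 8, r ^ k.val = a 2 ∨ q ^ k.val = a 2 ∨ (r * q) ^ k.val = a 2) ∧
    ((χ r = 1 ∧ r * r = z) ∨ (χ q = 1 ∧ q * q = z)) := by decide +kernel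
lemma orb : ∀ y : Q, χ y = 1 → Function.Bijective
    (![0, π y 0, π (a 2) 0, π y (π (a 2) 0), 1, π y 1, π (a 2) 1, π y (π (a 2) 1)] :
      Fin 8 → Fin 8) := by decide +kernel

noncomputable def act (r : Q) (v : V) : V := fun i => (s r i : ℤ_[2]) * v (π r i)
noncomputable def ε (v : V) : ZMod 2 := ∑ i, PadicInt.toZMod (v i)

lemma act_mul (r q : Q) (v : V) : act (r * q) v = act r (act q v) := by
  funext i; simp [act, π_mul, s_mul, mul_assoc]
lemma act_one (v : V) : act 1 v = v := by funext i; simp [act, π_one]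
lemma act_z (v : V) : act z v = -v := by funext i; simp [act, π_z]
lemma act_add (r : Q) (v w : V) : act r (v + w) = act r v + act r w := by
  funext i; simp [act, mul_add]
lemma act_neg (r : Q) (v : V) : act r (-v) = -act r v := by funext i; simp [act]
lemma act_zero (r : Q) : act r 0 = 0 := by funext i; simp [act]
lemma red_act (r : Q) (v : V) (i : Fin 8) :
    PadicInt.toZMod (act r v i) = PadicInt.toZMod (v (π r i)) := by simp [act, s_two]
lemma ε_act (r : Q) (v : V) : ε (act r v) = ε v := by
  simp only [ε, red_act]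
  exact (π_bij r).sum_comp (fun i => PadicInt.toZMod (v i))
lemma ε_add (v w : V) : ε (v + w) = ε v + ε w := by simp [ε, Finset.sum_add_distrib]
lemma ε_neg (v : V) : ε (-v) = ε v := by simp [ε]
lemma two_cancel {v w : V} (h : v + v = w + w) : v = w := by
  funext i
  have := congrFun h i
  simp only [Pi.add_apply, ← two_mul] at this
  exact mul_left_cancel₀ two_ne_zero this

@[ext] structure G where
  v : V
  q : Q
  h : ε v = χ q

noncomputable instance : Mul G := ⟨fun g h => ⟨g.v + act g.q h.v, g.q * h.q, by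
  rw [ε_add, ε_act, χ_mul, g.h, h.h]⟩⟩
noncomputable instance : One G := ⟨⟨0, 1, by simp [ε]; rfl⟩⟩
noncomputable instance : Inv G := ⟨fun g => ⟨-act g.q⁻¹ g.v, g.q⁻¹, by
  rw [ε_neg, ε_act, χ_inv, g.h]⟩⟩
@[simp] lemma mul_v (g h : G) : (g * h).v = g.v + act g.q h.v := rfl
@[simp] lemma mul_q (g h : G) : (g * h).q = g.q * h.q := rfl
@[simp] lemma one_v : (1 : G).v = 0 := rfl
@[simp] lemma one_q : (1 : G).q = 1 := rfl
@[simp] lemma inv_v (g : G) : g⁻¹.v = -act g.q⁻¹ g.v := rfl
@[simp] lemma inv_q (g : G) : g⁻¹.q = g.q⁻¹ := rfl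

noncomputable instance : Group G := Group.ofLeftAxioms
  (fun g h k => by ext1 <;> simp [act_add, act_mul, add_assoc, mul_assoc])
  (fun g => by ext1 <;> simp [act_one])
  (fun g => by ext1 <;> simp)

noncomputable def proj : G →* Q := MonoidHom.mk' G.q mul_q

lemma cent (u : G) (hu : u.q = z) (h : G) (hh : h ∈ Subgroup.centralizer {u}) :
    h.v + h.v = u.v - act h.q u.v := by
  have := congrArg G.v (Subgroup.mem_centralizer_singleton_iff.1 hh)
  rw [mul_v, mul_v, hu, act_z] at this
  linear_combination this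

lemma cent2 (u : G) (hu : u.q = z) (h : G) (hh : h ∈ Subgroup.centralizer {u})
    (h2 : h.q * h.q = z) : u.v = h.v + act h.q h.v := by
  have h1 := cent u hu h hh
  have h3 := congrArg (act h.q) h1
  rw [act_add, sub_eq_add_neg, act_add, act_neg, ← act_mul, h2, act_z] at h3
  apply two_cancel
  linear_combination -h1 - h3

lemma ca : IsCA G := by
  intro g hg h hh k hk
  by_cases hq : g.q = 1
  · have key : ∀ h ∈ Subgroup.centralizer {g}, h.q = 1 := by
      intro h hh
      by_contra hne
      obtain ⟨m, hm⟩ := pow_z _ hne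
      have h1 := congrArg G.v (Subgroup.mem_centralizer_singleton_iff.1 (pow_mem hh m.val))
      have h2 : (h ^ m.val).q = z := (map_pow proj h m.val).trans hm
      rw [mul_v, mul_v, hq, h2, act_z, act_one] at h1
      apply hg
      ext1
      · apply two_cancel
        rw [one_v]
        linear_combination -h1
      · exact hq
    ext1 <;> simp [key h hh, key k hk, act_one, add_comm]
  · obtain ⟨m, hm⟩ := pow_z _ hq
    have hu : (g ^ m.val).q = z := (map_pow proj g m.val).trans hm
    have sub : ∀ h ∈ Subgroup.centralizer {g}, h ∈ Subgroup.centralizer {g ^ m.val} := by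
      intro h hh
      rw [Subgroup.mem_centralizer_singleton_iff] at hh ⊢
      exact Commute.pow_right hh m.val
    replace hh := sub h hh
    replace hk := sub k hk
    generalize g ^ m.val = u at hu hh hk
    have hc : h.q * k.q = k.q * h.q := by
      by_contra hne
      obtain ⟨⟨j, hj⟩, hy⟩ := noncomm _ _ hne
      obtain ⟨b, hb, hbq⟩ : ∃ b ∈ Subgroup.centralizer {u}, b.q = a 2 := by
        rcases hj with hj | hj | hj
        · exact ⟨_, pow_mem hh j.val, (map_pow proj h j.val).trans hj⟩
        · exact ⟨_, pow_mem hk j.val, (map_pow proj k j.val).trans hj⟩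
        · exact ⟨_, pow_mem (mul_mem hh hk) j.val, (map_pow proj (h * k) j.val).trans hj⟩
      obtain ⟨y, hy, hy1, hy2⟩ : ∃ y ∈ Subgroup.centralizer {u}, χ y.q = 1 ∧ y.q * y.q = z := by
        rcases hy with hy | hy
        exacts [⟨h, hh, hy⟩, ⟨k, hk, hy⟩]
      have e1 := cent u hu b hb
      have e2 := cent2 u hu y hy hy2
      have e3 : ∀ i, PadicInt.toZMod (u.v i) = PadicInt.toZMod (u.v (π (a 2) i)) := by
        intro i
        have := congrArg (fun v : V => PadicInt.toZMod (v i)) e1
        simp only [Pi.add_apply, Pi.sub_apply, map_add, map_sub, red_act, hbq,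
          CharTwo.add_self_eq_zero] at this
        exact (sub_eq_zero.1 this.symm)
      have e4 : ∀ i, PadicInt.toZMod (u.v i) =
          PadicInt.toZMod (y.v i) + PadicInt.toZMod (y.v (π y.q i)) := by
        intro i
        rw [e2]; simp [red_act]
      have e5 := (orb y.q hy1).sum_comp (fun i => PadicInt.toZMod (y.v i))
      have e6 := y.h
      rw [hy1, ε, ← e5] at e6
      simp only [Fin.sum_univ_eight, Matrix.cons_val] at e6
      have f0 := e3 0
      have f1 := e3 1
      rw [e4, e4] at f0 f1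
      revert e6 f0 f1
      generalize PadicInt.toZMod (y.v 0) = x1
      generalize PadicInt.toZMod (y.v 1) = x2
      generalize PadicInt.toZMod (y.v (π y.q 0)) = x3
      generalize PadicInt.toZMod (y.v (π y.q 1)) = x4
      generalize PadicInt.toZMod (y.v (π (a 2) 0)) = x5
      generalize PadicInt.toZMod (y.v (π (a 2) 1)) = x6
      generalize PadicInt.toZMod (y.v (π y.q (π (a 2) 0))) = x7
      generalize PadicInt.toZMod (y.v (π y.q (π (a 2) 1))) = x8
      revert x1 x2 x3 x4 x5 x6 x7 x8
      decide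
    ext1
    · apply two_cancel
      rw [cent u hu _ (mul_mem hh hk), cent u hu _ (mul_mem hk hh), mul_q, mul_q, hc]
    · exact hc

instance : TopologicalSpace Q := ⊥
instance : DiscreteTopology Q := ⟨rfl⟩
def emb (g : G) : V × Q := (g.v, g.q)
noncomputable instance : TopologicalSpace G := TopologicalSpace.induced emb inferInstance

lemma emb_emb : Topology.IsEmbedding emb :=
  ⟨⟨rfl⟩, fun _ _ e => G.ext (congrArg Prod.fst e) (congrArg Prod.snd e)⟩
lemma cv : Continuous G.v := continuous_fst.comp emb_emb.continuous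
lemma cq : Continuous G.q := continuous_snd.comp emb_emb.continuous
lemma cact : Continuous (fun p : Q × V => act p.1 p.2) := by
  rw [continuous_prod_of_discrete_left]
  intro r
  refine continuous_pi fun i => ?_
  show Continuous fun v : V => (s r i : ℤ_[2]) * v (π r i)
  fun_prop

lemma red_cont : Continuous (PadicInt.toZMod : ℤ_[2] → ZMod 2) := by
  apply continuous_of_continuousAt_zero (PadicInt.toZMod (p := 2)).toAddMonoidHom
  rw [ContinuousAt, map_zero, nhds_discrete (ZMod 2), Filter.tendsto_pure]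
  filter_upwards [Metric.ball_mem_nhds (0 : ℤ_[2]) one_pos] with x hx
  have : x ∈ RingHom.ker (PadicInt.toZMod (p := 2)) := by
    rw [PadicInt.ker_toZMod, IsLocalRing.mem_maximalIdeal, PadicInt.mem_nonunits]
    simpa using hx
  exact this

lemma ε_cont : Continuous ε :=
  continuous_finsetSum _ fun i _ => red_cont.comp (continuous_apply i)

instance : IsTopologicalGroup G where
  continuous_mul := by
    rw [emb_emb.continuous_iff]
    refine Continuous.prodMk ((cv.comp continuous_fst).add
      (cact.comp ((cq.comp continuous_fst).prodMk (cv.comp continuous_snd)))) ?_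
    exact (continuous_of_discreteTopology (f := fun p : Q × Q => p.1 * p.2)).comp
      ((cq.comp continuous_fst).prodMk (cq.comp continuous_snd))
  continuous_inv := by
    rw [emb_emb.continuous_iff]
    have hi : Continuous (fun g : G => g.q⁻¹) :=
      (continuous_of_discreteTopology (f := fun p : Q => p⁻¹)).comp cq
    exact Continuous.prodMk (cact.comp (hi.prodMk cv)).neg hi

instance : CompactSpace G := by
  refine Topology.IsClosedEmbedding.compactSpace (f := emb) ⟨emb_emb, ?_⟩
  have : Set.range emb = {p | ε p.1 = χ p.2} := by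
    ext p
    exact ⟨by rintro ⟨g, rfl⟩; exact g.h, fun h => ⟨⟨p.1, p.2, h⟩, rfl⟩⟩
  rw [this]
  exact isClosed_eq (ε_cont.comp continuous_fst)
    ((continuous_of_discreteTopology (f := χ)).comp continuous_snd)

theorem result : ∃ n : ℕ, 4 ≤ n ∧ ∃ (G : Type) (_ : Group G) (_ : TopologicalSpace G),
    IsTopologicalGroup G ∧ CompactSpace G ∧ T2Space G ∧ TotallyDisconnectedSpace G ∧ IsCA G ∧
    ∃ (N : Subgroup G) (_ : N.Normal), IsClosed (N : Set G) ∧ (∀ a ∈ N, ∀ b ∈ N, a * b = b * a) ∧
      Nonempty (G ⧸ N ≃* QuaternionGroup (2 ^ (n - 2))) := by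
  refine ⟨4, le_rfl, G, inferInstance, inferInstance, inferInstance, inferInstance,
    emb_emb.t2Space, ?_, ca, proj.ker, inferInstance, ?_, ?_, ⟨?_⟩⟩
  · exact ⟨emb_emb.isTotallyDisconnected (isTotallyDisconnected_of_totallyDisconnectedSpace _)⟩
  · exact (isClosed_discrete {1}).preimage cq
  · intro g hg h hh
    have h1 : g.q = 1 := hg
    have h2 : h.q = 1 := hh
    ext1 <;> simp [h1, h2, act_one, add_comm]
  · refine QuotientGroup.quotientKerEquivOfSurjective proj ?_
    intro r
    refine ⟨⟨Pi.single 0 ((χ r).val : ℤ_[2]), r, ?_⟩, rfl⟩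
    simp [ε, Fin.sum_univ_eight]

end Pool.Agent.Results.MP_427463_al.Exists
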